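import Pool.Agent.helper53.BND.SpecL

/-! Project bnd (MP_376aaf_an), row LGU: invertible matrices over `S m` from families. -/

set_option autoImplicit false

open scoped Topology Matrix
open Filter Finset

namespace Pool.Agent.BND

open Pool.Agent.CZ Pool.Agent.PV

theorem LGU (hBFX : BFX_stmt) (hBFE : BFE_stmt) (hBFA : BFA_stmt) (hLGV : LGV_stmt)
    (hLGM : LGM_stmt) : LGU_stmt := by
  classical
  intro B M _ α A _ ι u c hC S hS m κ _ _ G hG
  have hlv : IsLv (B.L m) := hC.bs.lv m
  obtain ⟨G', hG', hinv⟩ := hLGV (B.L m) hlv κ G hG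
  obtain ⟨hM1, -, hM3⟩ := hLGM
  choose el hel1 hel2 using fun a b => hBFX B M α A ι u c hC m (G a b) (hG.fm a b)
  choose el' hel1' hel2' using fun a b => hBFX B M α A ι u c hC m (G' a b) (hG'.fm a b)
  obtain ⟨⟨h11, h12⟩, -, hz⟩ := hBFA B M α A ι u c hC m
  -- the key: two such matrices with inverse families are inverse
  have key : ∀ (g g' : Matrix κ κ (S m)) (F F' : κ → κ → ℕ → ℝ → ℕ → ℕ → ℂ),
      IsGF (B.L m) F → IsGF (B.L m) F' → HF B c m g F → HF B c m g' F' →
      (∀ e s, e < (B.L m).N → s ∈ U → mx (B.L m) F e s * mx (B.L m) F' e s = 1) → g * g' = 1 := by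
    intro g g' F F' hF hF' h1 h2 h3
    have h4 := hM3 B M α A ι u c hC S hS m κ g g' F F' hF.fm hF'.fm h1 h2
    ext a b
    have hin : InS B ι u c m (((g * g') a b : S m) : A) := (hS.mem m _).1 ((g * g') a b).2
    have hone : InS B ι u c m (((1 : Matrix κ κ (S m)) a b : S m) : A) ∧
        Fam B c m (((1 : Matrix κ κ (S m)) a b : S m) : A)
          (fun _ _ i j => (if a = b then 1 else 0) * if i = j then 1 else 0) := by
      by_cases hab : a = b
      · subst hab
        rw [Matrix.one_apply_eq]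
        refine ⟨h11, ?_⟩
        simpa using h12
      · rw [Matrix.one_apply_ne hab]
        have h5 := hz 0 1 _ h11 h12
        rw [zero_smul] at h5
        simpa [hab] using h5
    refine (hBFE B M α A ι u c hC m _ _ _ _ hin hone.1 (h4 a b) hone.2).2 ?_
    intro e s i j he hs hi hj
    have h6 := congrFun (congrFun (h3 e s he hs) (a, (⟨i, hi⟩ : Fin ((B.L m).h e))))
      (b, (⟨j, hj⟩ : Fin ((B.L m).h e)))
    rw [← hM1] at h6
    have h7 : fmul (B.L m) F F' a b e s i j =
        (1 : Matrix (κ × Fin ((B.L m).h e)) (κ × Fin ((B.L m).h e)) ℂ) (a, ⟨i, hi⟩) (b, ⟨j, hj⟩) := h6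
    rw [h7, Matrix.one_apply]
    by_cases hab : a = b <;> by_cases hij : i = j <;> simp [hab, hij]
  let g : Matrix κ κ (S m) := fun a b => ⟨el a b, (hS.mem m _).2 (hel1 a b)⟩
  let g' : Matrix κ κ (S m) := fun a b => ⟨el' a b, (hS.mem m _).2 (hel1' a b)⟩
  refine ⟨⟨g, g', key g g' G G' hG hG' (fun a b => hel2 a b) (fun a b => hel2' a b)
      (fun e s he hs => (hinv e s he hs).1),
    key g' g G' G hG' hG (fun a b => hel2' a b) (fun a b => hel2 a b)
      (fun e s he hs => (hinv e s he hs).2)⟩, fun a b => hel2 a b⟩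

end Pool.Agent.BND
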